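import Pool.Agent.Helper49.HW.Defs2

/-!
# Block A1 of MP_074879_pr: elementary facts on truncated drifts and tilts
-/

open Finset

namespace HW

section A1
variable (w : ℕ → ℝ) (K : ℕ)

lemma range_split_A1 (f : ℕ → ℝ) (x : ℕ) (hx : 1 ≤ x) :
    ∑ k ∈ range (x + 1), f k = f 0 + f 1 + ∑ k ∈ Ico 2 (x + 1), f k := by
  rw [Finset.range_eq_Ico, ← Finset.sum_Ico_consecutive f (Nat.zero_le 2) (by omega)]
  congr 1
  rw [← Finset.range_eq_Ico, Finset.sum_range_succ, Finset.sum_range_one]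

lemma range_ext_A1 (f : ℕ → ℝ) (hs : ∀ k, K ≤ k → f k = 0) (N : ℕ) (hN : K ≤ N) :
    ∑ k ∈ range K, f k = ∑ k ∈ range N, f k := by
  apply Finset.sum_subset
  · exact Finset.range_mono hN
  · intro k _ hk
    exact hs k (by simpa using hk)

theorem Dp_anti (hw : ∀ k, 0 ≤ w k) (x y : ℕ) (hx : 1 ≤ x) (hxy : x ≤ y) : Dp w y ≤ Dp w x := by
  unfold Dp
  rw [Finset.range_eq_Ico, Finset.range_eq_Ico,
    ← Finset.sum_Ico_consecutive _ (Nat.zero_le (x + 1)) (by omega : x + 1 ≤ y + 1)]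
  have h : ∑ k ∈ Ico (x + 1) (y + 1), (1 - (k : ℝ)) * w k ≤ 0 := by
    apply Finset.sum_nonpos
    intro k hk
    rw [Finset.mem_Ico] at hk
    have h1 : (1 : ℝ) ≤ k := by exact_mod_cast (by omega : 1 ≤ k)
    exact mul_nonpos_of_nonpos_of_nonneg (by linarith) (hw k)
  linarith

theorem Dp_eq_eps (hs : ∀ k, K ≤ k → w k = 0) (x : ℕ) (hx : K ≤ x + 1) :
    Dp w x = epsL w K := by
  unfold Dp epsL
  exact (range_ext_A1 K (fun k => (1 - (k : ℝ)) * w k) (fun k hk => by simp [hs k hk]) _ hx).symm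

theorem eps_le_Dp (hw : ∀ k, 0 ≤ w k) (hs : ∀ k, K ≤ k → w k = 0) (x : ℕ) (hx : 1 ≤ x) :
    epsL w K ≤ Dp w x := by
  rw [← Dp_eq_eps w K hs (max x K) (by omega)]
  exact Dp_anti w hw x (max x K) hx (le_max_left _ _)

theorem Dp_slow (hw : ∀ k, 0 ≤ w k) (hR : Reg w) (x : ℕ) (hx : 1 ≤ x) :
    Dp w x ≤ (1 + 1 / 250) * Dp w (2 * x) := by
  have hx0 : (0 : ℝ) < x := by exact_mod_cast hx
  have h1 : Dp w (2 * x) = Dp w x + ∑ k ∈ Ico (x + 1) (2 * x + 1), (1 - (k : ℝ)) * w k := by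
    unfold Dp
    rw [Finset.range_eq_Ico, Finset.range_eq_Ico,
      Finset.sum_Ico_consecutive _ (Nat.zero_le (x + 1)) (by omega : x + 1 ≤ 2 * x + 1)]
  have h2 : -(∑ k ∈ Ico (x + 1) (2 * x + 1), (1 - (k : ℝ)) * w k) * x ≤ Vp w (2 * x) := by
    have h3 : -(∑ k ∈ Ico (x + 1) (2 * x + 1), (1 - (k : ℝ)) * w k) * x ≤
        ∑ k ∈ Ico (x + 1) (2 * x + 1), ((k : ℝ) - 1) ^ 2 * w k := by
      rw [← Finset.sum_neg_distrib, Finset.sum_mul]
      apply Finset.sum_le_sum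
      intro k hk
      rw [Finset.mem_Ico] at hk
      have hk1 : (x : ℝ) + 1 ≤ k := by exact_mod_cast hk.1
      have := hw k
      nlinarith [mul_nonneg (mul_nonneg (by linarith : (0 : ℝ) ≤ (k : ℝ) - 1)
        (by linarith : (0 : ℝ) ≤ (k : ℝ) - 1 - x)) (hw k)]
    refine h3.trans ?_
    unfold Vp
    apply Finset.sum_le_sum_of_subset_of_nonneg
    · intro k hk
      rw [Finset.mem_Ico] at hk ⊢
      omega
    · intro k _ _
      exact mul_nonneg (sq_nonneg _) (hw k)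
  have h4 := hR (2 * x) (by omega)
  push_cast at h4
  have h5 : -(∑ k ∈ Ico (x + 1) (2 * x + 1), (1 - (k : ℝ)) * w k) * x ≤
      1 / 250 * Dp w (2 * x) * x := by
    calc _ ≤ Vp w (2 * x) := h2
      _ ≤ 1 / 500 * (2 * x) * Dp w (2 * x) := h4
      _ = _ := by ring
  have h6 := le_of_mul_le_mul_right h5 hx0
  linarith

theorem Fs_zero : Fs w K 0 = epsL w K := by
  unfold Fs epsL
  apply Finset.sum_congr rfl
  intro k _
  simp

theorem Fs_mono (hw : ∀ k, 0 ≤ w k) (s t : ℝ) (hst : s ≤ t) : Fs w K s ≤ Fs w K t := by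
  unfold Fs
  apply Finset.sum_le_sum
  intro k _
  rcases le_total (1 : ℝ) k with h | h
  · have h1 : Real.exp (-t * ((k : ℝ) - 1)) ≤ Real.exp (-s * ((k : ℝ) - 1)) :=
      Real.exp_le_exp.2 (by nlinarith)
    have h2 : (1 - (k : ℝ)) * w k ≤ 0 :=
      mul_nonpos_of_nonpos_of_nonneg (by linarith) (hw k)
    exact mul_le_mul_of_nonpos_left h1 h2
  · have h1 : Real.exp (-s * ((k : ℝ) - 1)) ≤ Real.exp (-t * ((k : ℝ) - 1)) :=
      Real.exp_le_exp.2 (by nlinarith)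
    have h2 : 0 ≤ (1 - (k : ℝ)) * w k := mul_nonneg (by linarith) (hw k)
    exact mul_le_mul_of_nonneg_left h1 h2

/-- convexity: `ms' = Fs` -/
theorem ms_ge (hw : ∀ k, 0 ≤ w k) (s t : ℝ) :
    ms w K s + (t - s) * Fs w K s ≤ ms w K t := by
  unfold ms Fs
  rw [Finset.mul_sum, ← Finset.sum_add_distrib]
  apply Finset.sum_le_sum
  intro k _
  have h1 : Real.exp (-t * ((k : ℝ) - 1)) =
      Real.exp (-s * ((k : ℝ) - 1)) * Real.exp ((t - s) * (1 - (k : ℝ))) := by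
    rw [← Real.exp_add]; congr 1; ring
  have h2 : (t - s) * (1 - (k : ℝ)) + 1 ≤ Real.exp ((t - s) * (1 - (k : ℝ))) :=
    Real.add_one_le_exp _
  have h3 : 0 ≤ w k * Real.exp (-s * ((k : ℝ) - 1)) := mul_nonneg (hw k) (Real.exp_pos _).le
  calc w k * Real.exp (-s * ((k : ℝ) - 1)) +
        (t - s) * ((1 - (k : ℝ)) * w k * Real.exp (-s * ((k : ℝ) - 1)))
      = w k * Real.exp (-s * ((k : ℝ) - 1)) * ((t - s) * (1 - (k : ℝ)) + 1) := by ring
    _ ≤ w k * Real.exp (-s * ((k : ℝ) - 1)) * Real.exp ((t - s) * (1 - (k : ℝ))) :=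
        mul_le_mul_of_nonneg_left h2 h3
    _ = w k * Real.exp (-t * ((k : ℝ) - 1)) := by rw [h1]; ring

theorem Fs_add_le (hw : ∀ k, 0 ≤ w k) (hK : 1 ≤ K) (s h : ℝ) (hs : 0 ≤ s) (hh : 0 ≤ h) :
    Fs w K (s + h) ≤ Fs w K s + h * S2 w K s + w 0 * (Real.exp (s + h) - Real.exp s) := by
  have hterm : ∀ k : ℕ, 2 ≤ k →
      (1 - (k : ℝ)) * w k * Real.exp (-(s + h) * ((k : ℝ) - 1)) ≤
      (1 - (k : ℝ)) * w k * Real.exp (-s * ((k : ℝ) - 1)) +
        h * (((k : ℝ) - 1) ^ 2 * w k * Real.exp (-s * ((k : ℝ) - 1))) := by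
    intro k hk
    have hk1 : (2 : ℝ) ≤ k := by exact_mod_cast hk
    have h1 : Real.exp (-(s + h) * ((k : ℝ) - 1)) =
        Real.exp (-s * ((k : ℝ) - 1)) * Real.exp (-(h * ((k : ℝ) - 1))) := by
      rw [← Real.exp_add]; congr 1; ring
    have h2 : -(h * ((k : ℝ) - 1)) + 1 ≤ Real.exp (-(h * ((k : ℝ) - 1))) :=
      Real.add_one_le_exp _
    have h3 : 0 ≤ ((k : ℝ) - 1) * w k * Real.exp (-s * ((k : ℝ) - 1)) :=
      mul_nonneg (mul_nonneg (by linarith) (hw k)) (Real.exp_pos _).le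
    have h4 := mul_le_mul_of_nonneg_left h2 h3
    rw [h1]
    nlinarith [h4]
  obtain ⟨m, rfl⟩ : ∃ m, K = m + 1 := ⟨K - 1, by omega⟩
  rcases Nat.eq_zero_or_pos m with rfl | hm
  · unfold Fs S2
    simp
    nlinarith [Real.exp_pos s]
  · unfold Fs S2
    rw [range_split_A1 _ m hm, range_split_A1 _ m hm]
    have h5 : ∑ k ∈ Ico 2 (m + 1), (1 - (k : ℝ)) * w k * Real.exp (-(s + h) * ((k : ℝ) - 1)) ≤
        ∑ k ∈ Ico 2 (m + 1), (1 - (k : ℝ)) * w k * Real.exp (-s * ((k : ℝ) - 1)) +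
        h * ∑ k ∈ Ico 2 (m + 1), ((k : ℝ) - 1) ^ 2 * w k * Real.exp (-s * ((k : ℝ) - 1)) := by
      rw [Finset.mul_sum, ← Finset.sum_add_distrib]
      exact Finset.sum_le_sum (fun k hk => hterm k (Finset.mem_Ico.1 hk).1)
    have h6 : (1 - ((0 : ℕ) : ℝ)) * w 0 * Real.exp (-(s + h) * (((0 : ℕ) : ℝ) - 1)) =
        w 0 * Real.exp (s + h) := by
      rw [show -(s + h) * (((0 : ℕ) : ℝ) - 1) = s + h by push_cast; ring]
      push_cast; ring
    have h7 : (1 - ((0 : ℕ) : ℝ)) * w 0 * Real.exp (-s * (((0 : ℕ) : ℝ) - 1)) =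
        w 0 * Real.exp s := by
      rw [show -s * (((0 : ℕ) : ℝ) - 1) = s by push_cast; ring]
      push_cast; ring
    have h8 : ∀ r : ℝ, (1 - ((1 : ℕ) : ℝ)) * w 1 * r = 0 := by intro r; push_cast; ring
    rw [h6, h7, h8, h8]
    nlinarith [h5]

theorem S2_zero_le (hw : ∀ k, 0 ≤ w k) (hs : ∀ k, K ≤ k → w k = 0) (s : ℝ) (h0 : 0 ≤ s) :
    S2 w K s ≤ Vp w K := by
  unfold S2 Vp
  calc ∑ k ∈ Ico 2 K, ((k : ℝ) - 1) ^ 2 * w k * Real.exp (-s * ((k : ℝ) - 1))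
      ≤ ∑ k ∈ Ico 2 K, ((k : ℝ) - 1) ^ 2 * w k := by
        apply Finset.sum_le_sum
        intro k hk
        have hk1 : (2 : ℝ) ≤ k := by exact_mod_cast (Finset.mem_Ico.1 hk).1
        have h1 : Real.exp (-s * ((k : ℝ) - 1)) ≤ 1 := Real.exp_le_one_iff.2 (by nlinarith)
        exact mul_le_of_le_one_right (mul_nonneg (sq_nonneg _) (hw k)) h1
    _ ≤ ∑ k ∈ Ico 2 (K + 1), ((k : ℝ) - 1) ^ 2 * w k := by
        apply Finset.sum_le_sum_of_subset_of_nonneg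
        · exact Finset.Ico_subset_Ico_right (Nat.le_succ K)
        · intro k _ _
          exact mul_nonneg (sq_nonneg _) (hw k)

lemma Fs_ext_A1 (hs : ∀ k, K ≤ k → w k = 0) (s : ℝ) (N : ℕ) (hN : K ≤ N) :
    Fs w K s = ∑ k ∈ range N, (1 - (k : ℝ)) * w k * Real.exp (-s * ((k : ℝ) - 1)) := by
  unfold Fs
  exact range_ext_A1 K (fun k => (1 - (k : ℝ)) * w k * Real.exp (-s * ((k : ℝ) - 1)))
    (fun k hk => by simp [hs k hk]) _ hN

/-- truncated drift and Laplace transform: `D(x+1) ≤ 1.6 F(s)` if `s x ≥ 1` -/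
theorem Dp_le_Fs (hw : ∀ k, 0 ≤ w k) (hs : ∀ k, K ≤ k → w k = 0) (hpos : 0 ≤ epsL w K)
    (s : ℝ) (h0 : 0 < s) (x : ℕ) (hx : 1 ≤ s * x) :
    Dp w (x + 1) ≤ 8 / 5 * Fs w K s := by
  have hD0 : 0 ≤ Dp w (x + 1) := hpos.trans (eps_le_Dp w K hw hs (x + 1) (by omega))
  set N := max K (x + 2) with hN
  have hF := Fs_ext_A1 w K hs s N (le_max_left _ _)
  have hE : epsL w K = ∑ k ∈ range N, (1 - (k : ℝ)) * w k := by
    unfold epsL
    exact range_ext_A1 K (fun k => (1 - (k : ℝ)) * w k) (fun k hk => by simp [hs k hk]) _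
      (le_max_left _ _)
  have hDN : Dp w (x + 1) = ∑ k ∈ range N, if k < x + 2 then (1 - (k : ℝ)) * w k else 0 := by
    rw [← Finset.sum_filter]
    unfold Dp
    apply Finset.sum_congr _ (fun _ _ => rfl)
    ext k
    simp only [Finset.mem_range, Finset.mem_filter]
    omega
  have hkey : Real.exp (-1) * epsL w K + (1 - Real.exp (-1)) * Dp w (x + 1) ≤ Fs w K s := by
    rw [hF, hE, hDN, Finset.mul_sum, Finset.mul_sum, ← Finset.sum_add_distrib]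
    apply Finset.sum_le_sum
    intro k _
    have hwk := hw k
    split_ifs with hk
    · rcases Nat.eq_zero_or_pos k with rfl | hk0
      · have h1 : (1 : ℝ) ≤ Real.exp s := Real.one_le_exp h0.le
        rw [show -s * (((0 : ℕ) : ℝ) - 1) = s by push_cast; ring]
        push_cast
        nlinarith
      · have hk1 : (1 : ℝ) ≤ k := by exact_mod_cast hk0
        have h1 : Real.exp (-s * ((k : ℝ) - 1)) ≤ 1 := Real.exp_le_one_iff.2 (by nlinarith)
        have h2 : (1 - (k : ℝ)) * w k ≤ 0 :=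
          mul_nonpos_of_nonpos_of_nonneg (by linarith) hwk
        nlinarith
    · have hk1 : (x : ℝ) + 2 ≤ k := by exact_mod_cast (not_lt.1 hk)
      have hx0 : (0 : ℝ) ≤ x := Nat.cast_nonneg x
      have h1 : Real.exp (-s * ((k : ℝ) - 1)) ≤ Real.exp (-1) :=
        Real.exp_le_exp.2 (by nlinarith)
      have h2 : (1 - (k : ℝ)) * w k ≤ 0 :=
        mul_nonpos_of_nonpos_of_nonneg (by linarith) hwk
      nlinarith
  have he : Real.exp (-1) ≤ 3 / 8 := by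
    have := Real.exp_neg_one_lt_d9
    linarith
  have he0 : 0 < Real.exp (-1) := Real.exp_pos _
  nlinarith [mul_nonneg he0.le hpos, mul_nonneg (sub_nonneg.2 he) hD0]

/-- upper bound of `F(s)` by the truncated drift at any level `x` -/
theorem Fs_le_Dp (hw : ∀ k, 0 ≤ w k) (hs : ∀ k, K ≤ k → w k = 0) (hK : 2 ≤ K)
    (s : ℝ) (h0 : 0 ≤ s) (x : ℕ) (hx : 1 ≤ x) :
    Fs w K s ≤ Dp w x + w 0 * (Real.exp s - 1) + s * Vp w x := by
  set N := max K (x + 1) with hN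
  have hF := Fs_ext_A1 w K hs s N (le_max_left _ _)
  have hF2 : Fs w K s ≤ ∑ k ∈ range (x + 1),
      (1 - (k : ℝ)) * w k * Real.exp (-s * ((k : ℝ) - 1)) := by
    rw [hF, Finset.range_eq_Ico, Finset.range_eq_Ico,
      ← Finset.sum_Ico_consecutive _ (Nat.zero_le (x + 1)) (le_max_right _ _ : x + 1 ≤ N)]
    have h : ∑ k ∈ Ico (x + 1) N, (1 - (k : ℝ)) * w k * Real.exp (-s * ((k : ℝ) - 1)) ≤ 0 := by
      apply Finset.sum_nonpos
      intro k hk
      rw [Finset.mem_Ico] at hk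
      have h1 : (1 : ℝ) ≤ k := by exact_mod_cast (by omega : 1 ≤ k)
      exact mul_nonpos_of_nonpos_of_nonneg
        (mul_nonpos_of_nonpos_of_nonneg (by linarith) (hw k)) (Real.exp_pos _).le
    linarith
  refine hF2.trans ?_
  unfold Dp Vp
  rw [range_split_A1 _ x hx, range_split_A1 _ x hx]
  have h5 : ∑ k ∈ Ico 2 (x + 1), (1 - (k : ℝ)) * w k * Real.exp (-s * ((k : ℝ) - 1)) ≤
      ∑ k ∈ Ico 2 (x + 1), (1 - (k : ℝ)) * w k +
      s * ∑ k ∈ Ico 2 (x + 1), ((k : ℝ) - 1) ^ 2 * w k := by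
    rw [Finset.mul_sum, ← Finset.sum_add_distrib]
    apply Finset.sum_le_sum
    intro k hk
    have hk1 : (2 : ℝ) ≤ k := by exact_mod_cast (Finset.mem_Ico.1 hk).1
    have h2 : -s * ((k : ℝ) - 1) + 1 ≤ Real.exp (-s * ((k : ℝ) - 1)) := Real.add_one_le_exp _
    have h3 : 0 ≤ ((k : ℝ) - 1) * w k := mul_nonneg (by linarith) (hw k)
    nlinarith [mul_le_mul_of_nonneg_left h2 h3]
  have h6 : (1 - ((0 : ℕ) : ℝ)) * w 0 * Real.exp (-s * (((0 : ℕ) : ℝ) - 1)) =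
      w 0 * Real.exp s := by
    rw [show -s * (((0 : ℕ) : ℝ) - 1) = s by push_cast; ring]
    push_cast; ring
  have h7 : (1 - ((0 : ℕ) : ℝ)) * w 0 = w 0 := by push_cast; ring
  have h8 : ∀ r : ℝ, (1 - ((1 : ℕ) : ℝ)) * w 1 * r = 0 := by intro r; push_cast; ring
  have h9 : (1 - ((1 : ℕ) : ℝ)) * w 1 = 0 := by push_cast; ring
  rw [h6, h7, h8, h9]
  nlinarith [h5]

end A1

end HW
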