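import Pool.Agent.Helper49.HW.SysDefs
import Pool.Agent.Helper97.HW.A2
import Pool.Agent.Helper24.HW.N0
import Pool.Agent.Helper14.HW.N1
import Pool.Agent.Helper87.HW.N2
import Pool.Agent.Helper83.HW.N3
import Pool.Agent.Helper97.HW.N4

/-!
# Block N5 of MP_074879_pr: the main estimate
-/

open Finset

namespace HW

namespace Sys
variable {f : ℝ → ℝ} (S : Sys f)

lemma cc_pos_N5 (j : ℕ) : 0 < S.cc j := lt_of_lt_of_le one_pos (S.cc_bounds j).1

lemma nu_pos_N5 (j n : ℕ) : 0 < S.nu j n := by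
  unfold nu
  have := S.cc_pos_N5 j
  positivity

lemma g_nonneg_N5 (j k : ℕ) : 0 ≤ S.g j k := (S.inv j).col_facts.1 k

lemma W_nonneg_N5 (j k : ℕ) : 0 ≤ S.W j k := (S.inv j).law.nonneg k

lemma colA_nonneg_N5 (j k : ℕ) : 0 ≤ S.colA j k := by
  unfold colA
  have h1 := S.cc_pos_N5 j
  have h2 := S.g_nonneg_N5 j k
  positivity

lemma wA_nonneg_N5 (J k : ℕ) : 0 ≤ S.wA J k := by
  unfold wA
  exact add_nonneg (S.W_nonneg_N5 0 k) (Finset.sum_nonneg (fun i _ => S.colA_nonneg_N5 i k))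

lemma wA_succ_N5 (J : ℕ) : S.wA (J + 1) = fun k => S.wA J k + S.colA J k := by
  funext k
  unfold wA
  rw [Finset.sum_range_succ]
  ring

lemma scale_g_N5 (j k : ℕ) :
    (S.cc j)⁻¹ * Real.exp (-S.ss j * ((k : ℝ) - 1)) * S.colA j k = S.g j k := by
  unfold colA
  have h1 := (S.cc_pos_N5 j).ne'
  have h2 : Real.exp (-S.ss j * ((k : ℝ) - 1)) * Real.exp (S.ss j * ((k : ℝ) - 1)) = 1 := by
    rw [← Real.exp_add, show -S.ss j * ((k : ℝ) - 1) + S.ss j * ((k : ℝ) - 1) = 0 by ring,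
      Real.exp_zero]
  calc (S.cc j)⁻¹ * Real.exp (-S.ss j * ((k : ℝ) - 1)) *
        (S.cc j * Real.exp (S.ss j * ((k : ℝ) - 1)) * S.g j k)
      = ((S.cc j)⁻¹ * S.cc j) *
        (Real.exp (-S.ss j * ((k : ℝ) - 1)) * Real.exp (S.ss j * ((k : ℝ) - 1))) * S.g j k := by
        ring
    _ = S.g j k := by rw [h2, inv_mul_cancel₀ h1]; ring

lemma scale_W_N5 (j n : ℕ) (A : Forest → Prop) :
    S.nu j n * TS n (S.wA j) A = TS n (S.W j) A := by
  have h := TS_scale n (S.wA j) (S.cc j)⁻¹ (S.ss j) A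
  rw [show (fun k : ℕ => (S.cc j)⁻¹ * Real.exp (-S.ss j * ((k : ℝ) - 1)) * S.wA j k) = S.W j from
    funext (fun k => (S.W_eq j k).symm)] at h
  rw [h]
  rfl

lemma scale_TM_N5 (j n : ℕ) (A : Forest → Prop) :
    S.nu j n * TM n (S.colA j) (S.wA j) A = TM n (S.g j) (S.W j) A := by
  have h := TM_scale n (S.colA j) (S.wA j) (S.cc j)⁻¹ (S.ss j) A
  rw [show (fun k : ℕ => (S.cc j)⁻¹ * Real.exp (-S.ss j * ((k : ℝ) - 1)) * S.wA j k) = S.W j from
    funext (fun k => (S.W_eq j k).symm),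
    show (fun k : ℕ => (S.cc j)⁻¹ * Real.exp (-S.ss j * ((k : ℝ) - 1)) * S.colA j k) = S.g j from
    funext (fun k => S.scale_g_N5 j k)] at h
  rw [h]
  rfl

lemma scale_add_N5 (j : ℕ) :
    (fun k : ℕ => (S.cc j)⁻¹ * Real.exp (-S.ss j * ((k : ℝ) - 1)) * S.wA (j + 1) k) =
      fun k => S.W j k + S.g j k := by
  funext k
  rw [S.wA_succ_N5 j]
  show (S.cc j)⁻¹ * Real.exp (-S.ss j * ((k : ℝ) - 1)) * (S.wA j k + S.colA j k) = _
  rw [mul_add, ← S.W_eq j k, S.scale_g_N5 j k]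

lemma scale_TS'_N5 (j n : ℕ) (A : Forest → Prop) :
    S.nu j n * TS n (S.wA (j + 1)) A = TS n (fun k => S.W j k + S.g j k) A := by
  have h := TS_scale n (S.wA (j + 1)) (S.cc j)⁻¹ (S.ss j) A
  rw [S.scale_add_N5 j] at h
  rw [h]
  rfl

/-- removing the later colours -/
lemma TS_chain_N5 (j n J : ℕ) (hJ : j + 1 ≤ J) (A : Forest → Prop) :
    TS n (S.wA J) A ≤ TS n (S.wA (j + 1)) A +
      ∑ m ∈ Ico (j + 1) J, TM n (S.colA m) (S.wA (m + 1)) A := by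
  induction J, hJ using Nat.le_induction with
  | base => simp
  | succ J hJ ih =>
    rw [Finset.sum_Ico_succ_top hJ]
    have h := TS_add_le n (S.wA J) (S.colA J) (S.wA_nonneg_N5 J) (S.colA_nonneg_N5 J) A
    rw [← S.wA_succ_N5 J] at h
    linarith

lemma TS_mono_wA_N5 (i n J : ℕ) (hJ : i ≤ J) :
    TS n (S.wA i) (fun _ => True) ≤ TS n (S.wA J) (fun _ => True) := by
  induction J, hJ using Nat.le_induction with
  | base => exact le_rfl
  | succ J hJ ih =>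
    have h := (TS_add_ge n (S.wA J) (S.colA J) (S.wA_nonneg_N5 J) (S.colA_nonneg_N5 J)).1
    rw [← S.wA_succ_N5 J] at h
    linarith

lemma L_ge_N5 (j : ℕ) : (1000 : ℝ) ≤ S.L j := by
  exact_mod_cast (S.inv j).L_ge

/-- the bad event of the statement -/
def Bad (f : ℝ → ℝ) (n : ℕ) (T : Forest) : Prop :=
  ¬ ((n : ℝ) * f n / 1000 ≤ hei T * wid T ∧ (hei T * wid T : ℝ) ≤ 1000 * n * f n)

/-- the bad event of a phase -/
def BadP (i n : ℕ) (T : Forest) : Prop :=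
  ¬ ((n : ℝ) * Phi (S.W i) (S.K i) (S.e i) / 200 ≤ hei T * wid T ∧
    (hei T * wid T : ℝ) ≤ 200 * n * Phi (S.W i) (S.K i) (S.e i))

lemma near_N5 (i n : ℕ) (hf : ∀ x > 0, 0 < f x) (h1 : 2 ^ (S.e i) ≤ n)
    (h2 : n ≤ 16 * 2 ^ (S.e (i + 1))) :
    f n ≤ 2 * f (2 ^ (S.e i)) ∧ f (2 ^ (S.e i)) ≤ 2 * f n := by
  have h1' : (2 : ℝ) ^ (S.e i) ≤ n := by exact_mod_cast h1
  have h2' : (n : ℝ) ≤ 16 * 2 ^ (S.e (i + 1)) := by exact_mod_cast h2
  have hn0 : (0 : ℝ) < n := lt_of_lt_of_le (by positivity) h1'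
  have hx := hf n hn0
  have hy := hf (2 ^ (S.e i)) (by positivity)
  have h3 := S.f_near i n h1' h2'
  have hL := S.L_ge_N5 i
  have h4 : 1 / (100 * (S.L i : ℝ) ^ 4) ≤ 1 / 100 := by
    apply one_div_le_one_div_of_le (by norm_num)
    have : (1 : ℝ) ≤ (S.L i : ℝ) ^ 4 := one_le_pow₀ (by linarith)
    linarith
  have h5 : (1 : ℝ) / 100 ≤ Real.log 2 := by
    have := Real.log_two_gt_d9
    linarith
  rw [abs_le] at h3
  constructor
  · rw [← Real.log_le_log_iff hx (by positivity), Real.log_mul (by norm_num) hy.ne']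
    linarith [h3.2]
  · rw [← Real.log_le_log_iff hy (by positivity), Real.log_mul (by norm_num) hx.ne']
    linarith [h3.1]

lemma bad_imp_N5 (i n : ℕ) (hf : ∀ x > 0, 0 < f x) (h1 : 2 ^ (S.e i) ≤ n)
    (h2 : n ≤ 16 * 2 ^ (S.e (i + 1)))
    (hPhi : Phi (S.W i) (S.K i) (S.e i) ≤ 2 * f (2 ^ (S.e i))) (T : Forest)
    (hT : Bad f n T) : S.BadP i n T := by
  intro hg
  apply hT
  obtain ⟨h3, h4⟩ := S.near_N5 i n hf h1 h2
  have h5 := S.Phi_ge i
  have hn0 : (0 : ℝ) ≤ n := Nat.cast_nonneg n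
  constructor
  · refine le_trans ?_ hg.1
    have h6 : (n : ℝ) * f n ≤ n * (2 * Phi (S.W i) (S.K i) (S.e i)) :=
      mul_le_mul_of_nonneg_left (by linarith) hn0
    have h7 : 0 ≤ (n : ℝ) * Phi (S.W i) (S.K i) (S.e i) :=
      mul_nonneg hn0 ((hf _ (by positivity)).le.trans h5)
    linarith
  · refine le_trans hg.2 ?_
    have h6 : (n : ℝ) * Phi (S.W i) (S.K i) (S.e i) ≤ n * (4 * f n) :=
      mul_le_mul_of_nonneg_left (by linarith) hn0
    have h7 : 0 ≤ (n : ℝ) * f n := by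
      have : (0 : ℝ) < n := lt_of_lt_of_le (by positivity : (0 : ℝ) < 2 ^ (S.e i))
        (by exact_mod_cast h1)
      exact mul_nonneg hn0 (hf _ this).le
    nlinarith

lemma phase_N5 (i n : ℕ) (hn1 : 13 * 2 ^ (S.e i) ≤ 10 * n) (hn2 : n ≤ 5 * 2 ^ (S.e (i + 1))) :
    1 / 2 * (S.q i * Real.exp (-4 * S.τ i)) ≤ TM n (S.g i) (S.W i) (fun _ => True) ∧
    (5 * 2 ^ (S.e i) ≤ n → 1 / 2 * S.q i ≤ TM n (S.g i) (S.W i) (fun _ => True)) ∧
    TM n (S.g i) (S.W i) (S.BadP i n) ≤ 25 / S.L i * TM n (S.g i) (S.W i) (fun _ => True) ∧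
    TM n (S.g i) (fun k => S.W i k + S.g i k) (fun _ => True) -
      TM n (S.g i) (S.W i) (fun _ => True) ≤ 2 / S.L i * TM n (S.g i) (S.W i) (fun _ => True) := by
  have hP : 100 * (S.L i : ℝ) ^ 2 ≤ Phi (S.W i) (S.K i) (S.e i) := by
    have h1 := S.f_ge i
    have h2 := S.Phi_ge i
    have hL := S.L_ge_N5 i
    have h3 : (S.L i : ℝ) ^ 2 ≤ (S.L i : ℝ) ^ 5 := pow_le_pow_right₀ (by linarith) (by norm_num)
    linarith
  rw [S.e_step i] at hn2
  exact Inv.phase (S.W i) (S.K i) (S.θ i) (S.e i) (S.L i) (S.inv i) hP n hn1 hn2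

lemma q_nonneg_N5 (i : ℕ) : 0 ≤ S.q i := by
  have h1 : 0 < S.ε i := (S.inv i).eps_pow.1
  have hL := S.L_ge_N5 i
  unfold q qc b
  have h2 : (0 : ℝ) < 2 ^ S.e i := by positivity
  have h3 : (0 : ℝ) < S.L i := by linarith
  positivity

lemma tau_nonneg_N5 (i : ℕ) : 0 ≤ S.τ i := by
  have h1 : 0 < S.ε i := (S.inv i).eps_pow.1
  have h2 := (S.inv i).θ_pos
  unfold τ b
  positivity

/-- adding colour `i` to law `i` -/
lemma step_N5 (i n : ℕ) (hf : ∀ x > 0, 0 < f x) (hn1 : 13 * 2 ^ (S.e i) ≤ 10 * n)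
    (hn2 : n ≤ 5 * 2 ^ (S.e (i + 1)))
    (hPhi : Phi (S.W i) (S.K i) (S.e i) ≤ 2 * f (2 ^ (S.e i))) :
    TS n (fun k => S.W i k + S.g i k) (Bad f n) ≤
      TS n (S.W i) (Bad f n) + 27 / S.L i * TM n (S.g i) (S.W i) (fun _ => True) := by
  obtain ⟨-, -, h3, h4⟩ := S.phase_N5 i n hn1 hn2
  have h5 := TS_add_le n (S.W i) (S.g i) (S.W_nonneg_N5 i) (S.g_nonneg_N5 i) (Bad f n)
  have h6 := TM_add_le n (S.W i) (S.g i) (S.W_nonneg_N5 i) (S.g_nonneg_N5 i) (Bad f n)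
  have h7 : TM n (S.g i) (S.W i) (Bad f n) ≤ TM n (S.g i) (S.W i) (S.BadP i n) := by
    apply TM_mono n _ _ (S.g_nonneg_N5 i) (S.W_nonneg_N5 i)
    intro T hT
    have hpos : 0 < 2 ^ (S.e i) := by positivity
    exact S.bad_imp_N5 i n hf (by omega) (by omega) hPhi T hT
  have h8 : 27 / (S.L i : ℝ) * TM n (S.g i) (S.W i) (fun _ => True) =
      25 / S.L i * TM n (S.g i) (S.W i) (fun _ => True) +
      2 / S.L i * TM n (S.g i) (S.W i) (fun _ => True) := by ring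
  rw [h8]
  linarith

/-- the law itself is negligible -/
lemma law_N5 (i n : ℕ) (hn1 : 5 * 2 ^ (S.e i) ≤ n) (hn2 : n ≤ 5 * 2 ^ (S.e (i + 1)))
    (A : Forest → Prop) :
    TS n (S.W i) A ≤ 1 / S.L i * TM n (S.g i) (S.W i) (fun _ => True) := by
  have h1 : TS n (S.W i) A ≤ TS n (S.W i) (fun _ => True) :=
    TS_mono n _ (S.W_nonneg_N5 i) _ _ (fun _ _ => trivial)
  have h2 := S.tdown i n hn1
  obtain ⟨-, h3, -, -⟩ := S.phase_N5 i n (by omega) hn2
  have h4 := h3 hn1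
  have hL := S.L_ge_N5 i
  have hq := S.q_nonneg_N5 i
  have h5 : Real.exp (-(S.L i : ℝ)) ≤ 1 / 2 * (1 / S.L i) := by
    rw [Real.exp_neg]
    have h6 := Real.quadratic_le_exp_of_nonneg (by linarith : (0 : ℝ) ≤ S.L i)
    rw [show (1 : ℝ) / 2 * (1 / S.L i) = (2 * (S.L i : ℝ))⁻¹ by
      rw [mul_inv]; ring]
    apply inv_anti₀ (by linarith)
    nlinarith
  calc TS n (S.W i) A ≤ Real.exp (-(S.L i : ℝ)) * S.q i := h1.trans h2
    _ ≤ 1 / 2 * (1 / S.L i) * S.q i := mul_le_mul_of_nonneg_right h5 hq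
    _ = 1 / S.L i * (1 / 2 * S.q i) := by ring
    _ ≤ 1 / S.L i * TM n (S.g i) (S.W i) (fun _ => True) :=
        mul_le_mul_of_nonneg_left h4 (by positivity)

lemma geo_N5 (j J : ℕ) (hJ : j + 1 ≤ J) :
    ∑ m ∈ Ico (j + 1) J, ((1 : ℝ) / 2) ^ (m - j + 3) ≤ 1 / 8 - (1 / 2) ^ (J - j + 2) := by
  induction J, hJ using Nat.le_induction with
  | base =>
    rw [Finset.Ico_self, Finset.sum_empty, show j + 1 - j + 2 = 3 by omega]
    norm_num
  | succ J hJ ih =>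
    rw [Finset.sum_Ico_succ_top hJ, show J + 1 - j + 2 = J - j + 3 by omega]
    have h1 : ((1 : ℝ) / 2) ^ (J - j + 2) = 2 * (1 / 2) ^ (J - j + 3) := by
      rw [show J - j + 3 = (J - j + 2) + 1 by omega, pow_succ]
      ring
    rw [h1] at ih
    linarith

lemma later_N5 (j n J : ℕ) (hJ : j + 1 ≤ J) (A : Forest → Prop) (c : ℝ) (hc : 0 ≤ c)
    (h : ∀ m, j + 1 ≤ m →
      S.nu j n * TM n (S.colA m) (S.wA (m + 1)) (fun _ => True) ≤ 3 * S.q m * c) :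
    S.nu j n * ∑ m ∈ Ico (j + 1) J, TM n (S.colA m) (S.wA (m + 1)) A ≤
      3 / 4 * (1 / S.L j) * (1 / 2 * (S.q j * c)) := by
  have hL := S.L_ge_N5 j
  have hL0 : (0 : ℝ) < S.L j := by linarith
  have hq := S.q_nonneg_N5 j
  have h1 : ∀ m ∈ Ico (j + 1) J, S.nu j n * TM n (S.colA m) (S.wA (m + 1)) A ≤
      3 * (S.q j / S.L j * c) * (1 / 2) ^ (m - j + 3) := by
    intro m hm
    rw [Finset.mem_Ico] at hm
    have h2 : TM n (S.colA m) (S.wA (m + 1)) A ≤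
        TM n (S.colA m) (S.wA (m + 1)) (fun _ => True) :=
      TM_mono n _ _ (S.colA_nonneg_N5 m) (S.wA_nonneg_N5 (m + 1)) _ _ (fun _ _ => trivial)
    have h3 := mul_le_mul_of_nonneg_left h2 (S.nu_pos_N5 j n).le
    have h4 := h m hm.1
    have h5 := S.q_decay j m (by omega)
    have h6 : 1 / ((S.L j : ℝ) * 2 ^ (m - j + 3)) * S.q j =
        S.q j / S.L j * (1 / 2) ^ (m - j + 3) := by
      rw [one_div_pow]
      field_simp
    rw [h6] at h5
    calc S.nu j n * TM n (S.colA m) (S.wA (m + 1)) A ≤ 3 * S.q m * c := h3.trans h4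
      _ ≤ 3 * (S.q j / S.L j * (1 / 2) ^ (m - j + 3)) * c :=
          mul_le_mul_of_nonneg_right (mul_le_mul_of_nonneg_left h5 (by norm_num)) hc
      _ = 3 * (S.q j / S.L j * c) * (1 / 2) ^ (m - j + 3) := by ring
  rw [Finset.mul_sum]
  refine (Finset.sum_le_sum h1).trans ?_
  rw [← Finset.mul_sum]
  have h7 := geo_N5 j J hJ
  have h8 : (0 : ℝ) ≤ (1 / 2) ^ (J - j + 2) := by positivity
  have h9 : 0 ≤ 3 * (S.q j / S.L j * c) := by positivity
  calc 3 * (S.q j / S.L j * c) * ∑ m ∈ Ico (j + 1) J, (1 / 2 : ℝ) ^ (m - j + 3)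
      ≤ 3 * (S.q j / S.L j * c) * (1 / 8) := mul_le_mul_of_nonneg_left (by linarith) h9
    _ = 3 / 4 * (1 / S.L j) * (1 / 2 * (S.q j * c)) := by ring

/-- N5: main estimate (uses phase for `j` and `j-1`, tdown, tup, N1) -/
theorem main (j n J : ℕ) (hj : 1 ≤ j) (hn1 : 13 * 2 ^ (S.e j) ≤ 10 * n)
    (hn2 : 10 * n ≤ 13 * 2 ^ (S.e (j + 1))) (hJ : j + 1 ≤ J)
    (hPhi : ∀ i, j - 1 ≤ i → Phi (S.W i) (S.K i) (S.e i) ≤ 2 * f (2 ^ (S.e i)))
    (hf : ∀ x > 0, 0 < f x) :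
    TS n (S.wA J) (fun T => ¬ ((n : ℝ) * f n / 1000 ≤ hei T * wid T ∧
        (hei T * wid T : ℝ) ≤ 1000 * n * f n)) ≤
      100 / S.L (j - 1) * TS n (S.wA J) (fun _ => True) := by
  obtain ⟨j', rfl⟩ : ∃ j', j = j' + 1 := ⟨j - 1, by omega⟩
  rw [Nat.add_sub_cancel] at hPhi ⊢
  show TS n (S.wA J) (Bad f n) ≤ 100 / S.L j' * TS n (S.wA J) (fun _ => True)
  have hpos : ∀ i, 0 < 2 ^ (S.e i) := fun i => by positivity
  have hn0 : 1 ≤ n := by have := hpos (j' + 1); omega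
  have hn3 : n ≤ 5 * 2 ^ (S.e (j' + 1 + 1)) := by omega
  have hnu := S.nu_pos_N5 (j' + 1) n
  have hL' := S.L_ge_N5 j'
  have hL := S.L_ge_N5 (j' + 1)
  have hLL : (S.L j' : ℝ) ≤ S.L (j' + 1) := by
    have : S.L j' ≤ S.L (j' + 1) := by rcases S.L_step j' with h | h <;> omega
    exact_mod_cast this
  have hinv : 1 / (S.L (j' + 1) : ℝ) ≤ 1 / S.L j' := one_div_le_one_div_of_le (by linarith) hLL
  set X := TM n (S.g (j' + 1)) (S.W (j' + 1)) (fun _ => True) with hX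
  have hX0 : 0 ≤ X := TM_nonneg n _ _ (S.g_nonneg_N5 _) (S.W_nonneg_N5 _) _
  set Y := S.nu (j' + 1) n * TS n (S.wA J) (fun _ => True) with hY
  -- lower bounds for the total
  have hXY : X ≤ Y := by
    have h1 := (TS_add_ge n (S.W (j' + 1)) (S.g (j' + 1)) (S.W_nonneg_N5 _) (S.g_nonneg_N5 _)).2
    rw [← S.scale_TS'_N5 (j' + 1) n] at h1
    exact h1.trans (mul_le_mul_of_nonneg_left (S.TS_mono_wA_N5 _ n J hJ) hnu.le)
  have hWY : TS n (S.W (j' + 1)) (fun _ => True) ≤ Y := by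
    rw [← S.scale_W_N5 (j' + 1) n]
    exact mul_le_mul_of_nonneg_left (S.TS_mono_wA_N5 _ n J (by omega)) hnu.le
  have hY0 : 0 ≤ Y := hX0.trans hXY
  -- reduction to the scale `j`
  have hmain : S.nu (j' + 1) n * TS n (S.wA J) (Bad f n) ≤
      TS n (S.W (j' + 1)) (Bad f n) + 27 / S.L (j' + 1) * X +
      S.nu (j' + 1) n * ∑ m ∈ Ico (j' + 1 + 1) J, TM n (S.colA m) (S.wA (m + 1)) (Bad f n) := by
    have h1 := S.TS_chain_N5 (j' + 1) n J hJ (Bad f n)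
    have h2 := mul_le_mul_of_nonneg_left h1 hnu.le
    rw [mul_add, S.scale_TS'_N5 (j' + 1) n] at h2
    have h3 := S.step_N5 (j' + 1) n hf hn1 hn3 (hPhi _ (by omega))
    linarith
  suffices hs : S.nu (j' + 1) n * TS n (S.wA J) (Bad f n) ≤ 100 / S.L j' * Y by
    have h1 : 100 / S.L j' * Y =
        S.nu (j' + 1) n * (100 / S.L j' * TS n (S.wA J) (fun _ => True)) := by rw [hY]; ring
    rw [h1] at hs
    exact le_of_mul_le_mul_left hs hnu
  have e1 : 27 / (S.L (j' + 1) : ℝ) * X = 27 * (1 / S.L (j' + 1) * X) := by ring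
  have e2 : 100 / (S.L j' : ℝ) * Y = 100 * (1 / S.L j' * Y) := by ring
  have e3 : 1 / (S.L (j' + 1) : ℝ) * X ≤ 1 / S.L j' * Y :=
    mul_le_mul hinv hXY hX0 (by positivity)
  have e4 : 0 ≤ 1 / (S.L j' : ℝ) * Y := by positivity
  rcases Nat.lt_or_ge n (5 * 2 ^ (S.e (j' + 1))) with hcase | hcase
  · -- Case 2
    have hee : 4 * 2 ^ (S.e j') ≤ 2 ^ (S.e (j' + 1)) := by
      rw [S.e_step j', pow_add]
      have h1 : 4 ≤ 2 ^ (S.L j') := by
        calc 4 = 2 ^ 2 := by norm_num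
          _ ≤ 2 ^ (S.L j') := Nat.pow_le_pow_right (by norm_num) (by
            have := (S.inv j').L_ge; omega)
      nlinarith [hpos j']
    have hn4 : 13 * 2 ^ (S.e j') ≤ 10 * n := by omega
    have hn5 : 5 * 2 ^ (S.e j') ≤ n := by omega
    have hn6 : n ≤ 5 * 2 ^ (S.e (j' + 1)) := hcase.le
    -- the law `W j`
    set X' := TM n (S.g j') (S.W j') (fun _ => True) with hX'
    have h1 := S.step_N5 j' n hf hn4 hn6 (hPhi _ le_rfl)
    have h2 := S.law_N5 j' n hn5 hn6 (Bad f n)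
    have h3 := (TS_add_ge n (S.W j') (S.g j') (S.W_nonneg_N5 _) (S.g_nonneg_N5 _)).2
    have h4 : TS n (fun k => S.W j' k + S.g j' k) (Bad f n) ≤
        28 / S.L j' * TS n (fun k => S.W j' k + S.g j' k) (fun _ => True) := by
      have h5 : 28 / (S.L j' : ℝ) * X' ≤
          28 / S.L j' * TS n (fun k => S.W j' k + S.g j' k) (fun _ => True) :=
        mul_le_mul_of_nonneg_left h3 (by positivity)
      have h6 : 28 / (S.L j' : ℝ) * X' = 27 / S.L j' * X' + 1 / S.L j' * X' := by ring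
      linarith
    have hnu' := S.nu_pos_N5 j' n
    have h7 : TS n (S.W (j' + 1)) (Bad f n) ≤
        28 / S.L j' * TS n (S.W (j' + 1)) (fun _ => True) := by
      rw [← S.scale_TS'_N5 j' n, ← S.scale_TS'_N5 j' n] at h4
      have h8 : S.nu j' n * TS n (S.wA (j' + 1)) (Bad f n) ≤
          S.nu j' n * (28 / S.L j' * TS n (S.wA (j' + 1)) (fun _ => True)) := by
        calc _ ≤ _ := h4
          _ = _ := by ring
      have h9 := le_of_mul_le_mul_left h8 hnu'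
      rw [← S.scale_W_N5 (j' + 1) n, ← S.scale_W_N5 (j' + 1) n]
      calc S.nu (j' + 1) n * TS n (S.wA (j' + 1)) (Bad f n) ≤
          S.nu (j' + 1) n * (28 / S.L j' * TS n (S.wA (j' + 1)) (fun _ => True)) :=
            mul_le_mul_of_nonneg_left h9 hnu.le
        _ = _ := by ring
    have h10 : 28 / (S.L j' : ℝ) * TS n (S.W (j' + 1)) (fun _ => True) ≤ 28 / S.L j' * Y :=
      mul_le_mul_of_nonneg_left hWY (by positivity)
    have e5 : 28 / (S.L j' : ℝ) * Y = 28 * (1 / S.L j' * Y) := by ring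
    -- later colours
    have h11 := S.later_N5 (j' + 1) n J hJ (Bad f n) (Real.exp (-(100 * S.τ (j' + 1))))
      (Real.exp_pos _).le (fun m hm => S.tup_c (j' + 1) m n hm hn0 hn6)
    obtain ⟨h12, -, -, -⟩ := S.phase_N5 (j' + 1) n hn1 hn3
    have h13 : Real.exp (-(100 * S.τ (j' + 1))) ≤ Real.exp (-4 * S.τ (j' + 1)) :=
      Real.exp_le_exp.2 (by have := S.tau_nonneg_N5 (j' + 1); linarith)
    have h14 : 1 / 2 * (S.q (j' + 1) * Real.exp (-(100 * S.τ (j' + 1)))) ≤ X := by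
      refine le_trans ?_ h12
      exact mul_le_mul_of_nonneg_left
        (mul_le_mul_of_nonneg_left h13 (S.q_nonneg_N5 _)) (by norm_num)
    have h15 : 3 / 4 * (1 / (S.L (j' + 1) : ℝ)) *
        (1 / 2 * (S.q (j' + 1) * Real.exp (-(100 * S.τ (j' + 1))))) ≤
        3 / 4 * (1 / (S.L (j' + 1) : ℝ)) * X :=
      mul_le_mul_of_nonneg_left h14 (by positivity)
    have e6 : 3 / 4 * (1 / (S.L (j' + 1) : ℝ)) * X = 3 / 4 * (1 / (S.L (j' + 1) : ℝ) * X) := by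
      ring
    rw [e2]
    rw [e1] at hmain
    rw [e5] at h10
    rw [e6] at h15
    linarith
  · -- Case 1
    have h1 := S.law_N5 (j' + 1) n hcase hn3 (Bad f n)
    have h11 := S.later_N5 (j' + 1) n J hJ (Bad f n) 1 zero_le_one (fun m hm => by
      have hτ := S.tau_nonneg_N5 m
      have hq := S.q_nonneg_N5 m
      have h2 : Real.exp (-(S.τ m)) ≤ 1 := Real.exp_le_one_iff.2 (by linarith)
      have h3 : 3 * S.q m * Real.exp (-(S.τ m)) ≤ 3 * S.q m * 1 :=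
        mul_le_mul_of_nonneg_left h2 (by linarith)
      rcases Nat.lt_or_ge m (j' + 1 + 2) with hm2 | hm2
      · have hm3 : m = j' + 1 + 1 := by omega
        subst hm3
        exact (S.tup_a (j' + 1) n hn0 hn2).trans h3
      · exact (S.tup_b (j' + 1) m n hm2 hn0 hn2).trans h3)
    obtain ⟨-, h12, -, -⟩ := S.phase_N5 (j' + 1) n hn1 hn3
    have h13 := h12 hcase
    have h15 : 3 / 4 * (1 / (S.L (j' + 1) : ℝ)) * (1 / 2 * (S.q (j' + 1) * 1)) ≤
        3 / 4 * (1 / (S.L (j' + 1) : ℝ)) * X :=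
      mul_le_mul_of_nonneg_left (by rw [mul_one]; exact h13) (by positivity)
    have e6 : 3 / 4 * (1 / (S.L (j' + 1) : ℝ)) * X = 3 / 4 * (1 / (S.L (j' + 1) : ℝ) * X) := by
      ring
    rw [e2]
    rw [e1] at hmain
    rw [e6] at h15
    linarith

end Sys

end HW
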