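import Pool.Agent.Helper1.HW.A1b
import Pool.Agent.Helper97.HW.A2

/-!
# Block R0 of MP_074879_pr: the invariants pass to the next phase
-/

open Finset

namespace HW

lemma pow_four_le_R0 (n : ℕ) (hn : 16 ≤ n) : n ^ 4 ≤ 2 ^ n := by
  induction n, hn using Nat.le_induction with
  | base => norm_num
  | succ n hn ih =>
    have h1 : (n + 1) ^ 4 ≤ 2 * n ^ 4 := by
      have h2 : 16 * n ^ 3 ≤ n ^ 4 := by
        calc 16 * n ^ 3 ≤ n * n ^ 3 := Nat.mul_le_mul_right _ hn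
          _ = n ^ 4 := by ring
      have h3 : 16 * n ^ 2 ≤ n ^ 3 := by
        calc 16 * n ^ 2 ≤ n * n ^ 2 := Nat.mul_le_mul_right _ hn
          _ = n ^ 3 := by ring
      have h4 : 16 * n ≤ n ^ 2 := by
        calc 16 * n ≤ n * n := Nat.mul_le_mul_right _ hn
          _ = n ^ 2 := by ring
      nlinarith [h2, h3, h4]
    calc (n + 1) ^ 4 ≤ 2 * n ^ 4 := h1
      _ ≤ 2 * 2 ^ n := Nat.mul_le_mul_left _ ih
      _ = 2 ^ (n + 1) := by ring

section R
variable (w : ℕ → ℝ) (K : ℕ) (θ : ℝ) (e L : ℕ)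

/-- R0: the invariants pass to the next phase, for every admissible tilt -/
theorem Inv.next (h : Inv w K θ e L) (L' : ℕ) (hL' : L' = L ∨ L' = L + 1)
    (hLe : L' ^ 5 ≤ e + L) (θ' : ℝ)
    (h1 : (L' : ℝ) ≤ θ' * (epsL w K * 2 ^ (e + L))) (h2 : θ' ^ 2 * 2 ^ (e + L) ≤ 1) :
    Inv (nextW w K θ e L θ') (nextK w K e L) θ' (e + L) L' ∧
    epsL (nextW w K θ e L θ') (nextK w K e L) =
      Fs (fun k => w k + phCol w K θ e L k) (nextK w K e L) θ' /
        ms (fun k => w k + phCol w K θ e L k) (nextK w K e L) θ' ∧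
    19 / 20 * epsL w K ≤ epsL (nextW w K θ e L θ') (nextK w K e L) := by
  obtain ⟨hε0, hε1, -⟩ := h.eps_pow
  obtain ⟨hc0, -, hcs, -, -, -, -⟩ := h.col_facts
  set ε := epsL w K with hεdef
  set K' := nextK w K e L with hK'
  set v : ℕ → ℝ := fun k => w k + phCol w K θ e L k with hv
  have hKK' : K ≤ K' := le_max_left _ _
  have hvn : ∀ k, 0 ≤ v k := fun k => add_nonneg (h.law.nonneg k) (hc0 k)
  have hvs : ∀ k, K' ≤ k → v k = 0 := by
    intro k hk
    show w k + phCol w K θ e L k = 0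
    rw [h.law.supp k (hKK'.trans hk), hcs k hk, add_zero]
  have hLge := h.L_ge
  have hL'ge : 1000 ≤ L' := by rcases hL' with rfl | rfl <;> omega
  have hLR : (1000 : ℝ) ≤ L := by exact_mod_cast hLge
  have hL'R : (1000 : ℝ) ≤ L' := by exact_mod_cast hL'ge
  -- the exponent
  set E : ℝ := ((e + L : ℕ) : ℝ) with hE
  have hEe : E = (e : ℝ) + L := by rw [hE]; push_cast; ring
  have he1000 : 1000 ≤ e := by
    have h5 := h.L_le
    have h6 : L ≤ L ^ 5 := Nat.le_self_pow (by norm_num) L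
    omega
  have heR : (1000 : ℝ) ≤ e := by exact_mod_cast he1000
  have hE2 : (2000 : ℝ) ≤ E := by rw [hEe]; linarith
  have hP : E ^ 4 ≤ 2 ^ (e + L) := by
    have := pow_four_le_R0 (e + L) (by omega)
    rw [hE]
    exact_mod_cast this
  have hPpos : (0 : ℝ) < 2 ^ (e + L) := by positivity
  have hθ'pos : 0 < θ' := by
    by_contra hcon
    push Not at hcon
    have h3 : θ' * (ε * 2 ^ (e + L)) ≤ 0 :=
      mul_nonpos_of_nonpos_of_nonneg hcon (mul_nonneg hε0.le hPpos.le)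
    linarith
  have hθE : θ' * E ^ 2 ≤ 1 := by
    have h3 : (θ' * E ^ 2) ^ 2 ≤ 1 := by
      calc (θ' * E ^ 2) ^ 2 = θ' ^ 2 * E ^ 4 := by ring
        _ ≤ θ' ^ 2 * 2 ^ (e + L) := mul_le_mul_of_nonneg_left hP (sq_nonneg _)
        _ ≤ 1 := h2
    have h4 : 0 ≤ θ' * E ^ 2 := by positivity
    nlinarith
  have hE2pos : (0 : ℝ) < E ^ 2 := by positivity
  have hθ'le : θ' ≤ 1 / E ^ 2 := by rw [le_div_iff₀ hE2pos]; exact hθE
  have hinvE : 1 / E ^ 2 ≤ 1 / 4000000 := by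
    apply one_div_le_one_div_of_le (by norm_num)
    nlinarith
  have hθ'1 : θ' ≤ 1 / 1000 := by linarith
  -- total mass
  obtain ⟨hm1, hm2⟩ := h.ms_bounds w K θ e L θ' hθ'pos.le hθ'1
  set m := ms v K' θ' with hm
  have hm3 : m ≤ 1 + 3 / E ^ 2 := by
    have h3 : 1 / (8 * (L : ℝ) * 2 ^ (e + L)) ≤ 1 / E ^ 2 := by
      apply one_div_le_one_div_of_le hE2pos
      have h4 : E ^ 2 ≤ E ^ 4 := by nlinarith [mul_nonneg hE2pos.le (by nlinarith : (0 : ℝ) ≤ E ^ 2 - 1)]
      nlinarith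
    have h5 : 3 / E ^ 2 = 1 / E ^ 2 + 2 * (1 / E ^ 2) := by ring
    rw [h5]
    linarith
  have hmpos : 0 < m := by linarith
  have hm4 : m ≤ 1 + 1 / 1000 := by
    have h5 : 3 / E ^ 2 = 3 * (1 / E ^ 2) := by ring
    rw [h5] at hm3
    linarith
  -- drift of `v`
  have hF0 : (1 - 1 / (L : ℝ)) * Fs w K θ' ≤ Fs v K' θ' := h.Fs_add_ge w K θ e L θ' hθ'pos.le
  have hL1 : (999 : ℝ) / 1000 ≤ 1 - 1 / (L : ℝ) := by
    have : 1 / (L : ℝ) ≤ 1 / 1000 := one_div_le_one_div_of_le (by norm_num) hLR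
    linarith
  have hF1 : ε ≤ Fs w K θ' := by
    have h3 := Fs_mono w K h.law.nonneg 0 θ' hθ'pos.le
    rwa [Fs_zero] at h3
  have hF2 : 999 / 1000 * ε ≤ Fs v K' θ' := by nlinarith
  have hεv : 0 ≤ epsL v K' := by
    have h3 := h.Fs_add_ge w K θ e L 0 le_rfl
    rw [Fs_zero] at h3
    have h4 : Fs v K' 0 = epsL v K' := Fs_zero v K'
    rw [← h4]
    refine le_trans ?_ h3
    exact mul_nonneg (by linarith) hε0.le
  -- second claim
  have hclaim2 : epsL (nextW w K θ e L θ') K' = Fs v K' θ' / m := by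
    unfold epsL nextW tilt Fs
    rw [Finset.sum_div]
    apply Finset.sum_congr rfl
    intro k _
    rw [hm, hv, hK']
    ring
  have hclaim3 : 19 / 20 * ε ≤ epsL (nextW w K θ e L θ') K' := by
    rw [hclaim2, le_div_iff₀ hmpos]
    nlinarith
  refine ⟨?_, hclaim2, hclaim3⟩
  -- the masses at 0 and 1
  have haux : ∀ x : ℝ, 9 / 20 + 1 / (e : ℝ) ≤ x → 9 / 20 + 1 / E ≤ x / m := by
    intro x hx
    rw [le_div_iff₀ hmpos]
    have hEpos : 0 < E := by linarith
    have hepos : (0 : ℝ) < e := by linarith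
    have h3 : 1 / (e : ℝ) - 1 / E = L / (e * E) := by
      rw [hEe]
      field_simp
      ring
    have h4 : 3 / E ^ 2 ≤ L / (e * E) := by
      rw [div_le_div_iff₀ hE2pos (mul_pos hepos hEpos)]
      have h5 : (e : ℝ) ≤ E := by rw [hEe]; linarith
      have h6 : (e : ℝ) * E ≤ E ^ 2 := by nlinarith
      nlinarith
    have h7 : 1 / E ≤ 1 / 2000 := one_div_le_one_div_of_le (by norm_num) hE2
    have h8 : 0 ≤ 3 / E ^ 2 := by positivity
    have h9 : (9 / 20 + 1 / E) * m ≤ (9 / 20 + 1 / E) * (1 + 3 / E ^ 2) :=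
      mul_le_mul_of_nonneg_left hm3 (by positivity)
    have h10 : (9 / 20 + 1 / E) * (1 + 3 / E ^ 2) ≤ 9 / 20 + 1 / E + 3 / E ^ 2 := by nlinarith
    linarith
  have hbpos : 0 < ε * 2 ^ e := by positivity
  refine ⟨hL'ge, hLe, ?_, ?_, ?_, ?_, ?_, hθ'pos, h2, ?_, ?_⟩
  · exact tilt_law v K' hvn hvs θ' hmpos
  · -- support
    rw [hK']
    unfold nextK
    rw [Nat.cast_max]
    apply max_le
    · have h3 := h.K_le
      have h4 : (2 : ℝ) ^ e ≤ 2 ^ (e + L) := pow_le_pow_right₀ (by norm_num) (by omega)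
      linarith
    · push_cast
      have h3 : ((⌊8 * 2 ^ L * (epsL w K * 2 ^ e)⌋₊ : ℕ) : ℝ) ≤ 8 * 2 ^ L * (ε * 2 ^ e) :=
        Nat.floor_le (by positivity)
      have h4 : 8 * 2 ^ L * (ε * 2 ^ e) ≤ 8 * 2 ^ (e + L) := by
        rw [pow_add]
        have h5 : (0 : ℝ) < 2 ^ e * 2 ^ L := by positivity
        nlinarith
      linarith
  · -- mass at 0
    have h3 : nextW w K θ e L θ' 0 = v 0 * Real.exp θ' / m := by
      unfold nextW tilt
      rw [show -θ' * (((0 : ℕ) : ℝ) - 1) = θ' by push_cast; ring]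
    rw [h3]
    apply haux
    have h4 : w 0 ≤ v 0 := le_add_of_nonneg_right (hc0 0)
    have h5 : (1 : ℝ) ≤ Real.exp θ' := Real.one_le_exp hθ'pos.le
    have h6 := h.w0
    have h7 := hvn 0
    nlinarith
  · have h3 : nextW w K θ e L θ' 1 = v 1 / m := by
      unfold nextW tilt
      rw [show -θ' * (((1 : ℕ) : ℝ) - 1) = 0 by push_cast; ring, Real.exp_zero, mul_one]
    rw [h3]
    apply haux
    have h4 : w 1 ≤ v 1 := le_add_of_nonneg_right (hc0 1)
    have h6 := h.w1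
    linarith
  · exact tilt_reg v K' hvn (h.reg_add) θ' hθ'pos.le hmpos
  · -- second moment
    have h3 : Vp (nextW w K θ e L θ') K' = S2 v K' θ' / m := by
      unfold Vp nextW tilt S2
      have h4 : 1 ≤ K' := by
        rw [hK']; unfold nextK
        exact le_trans (by omega) (le_max_right _ _)
      rcases Nat.lt_or_ge K' 2 with h5 | h5
      · rw [Finset.Ico_eq_empty (by omega), Finset.Ico_eq_empty (by omega)]
        simp
      · rw [Finset.sum_Ico_succ_top (by omega), Finset.sum_div]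
        have h6 : v K' = 0 := hvs K' le_rfl
        have h7 : w K' + phCol w K θ e L K' = 0 := h6
        beta_reduce
        rw [h7]
        simp only [zero_mul, zero_div, mul_zero, add_zero]
        apply Finset.sum_congr rfl
        intro k _
        rw [hm, hv, hK']
        ring
    rw [h3, hclaim2]
    have h4 := S2_le v K' hvn hvs hεv (h.reg_add) θ' hθ'pos hθ'1
    calc S2 v K' θ' / m ≤ (7 / 500 * (Fs v K' θ' / θ')) / m :=
          div_le_div_of_nonneg_right h4 hmpos.le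
      _ = 7 / 500 * (Fs v K' θ' / m / θ') := by ring
  · have h3 : θ' * (19 / 20 * ε * 2 ^ (e + L)) ≤
        θ' * (epsL (nextW w K θ e L θ') K' * 2 ^ (e + L)) :=
      mul_le_mul_of_nonneg_left (mul_le_mul_of_nonneg_right hclaim3 hPpos.le) hθ'pos.le
    have h4 : θ' * (19 / 20 * ε * 2 ^ (e + L)) = 19 / 20 * (θ' * (ε * 2 ^ (e + L))) := by ring
    rw [h4] at h3
    have h5 : 19 / 20 * (L' : ℝ) ≤ 19 / 20 * (θ' * (ε * 2 ^ (e + L))) :=
      mul_le_mul_of_nonneg_left h1 (by norm_num)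
    linarith

end R

end HW
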